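import Pool.Agent.R964.Pseudo

/-!
# MP_67c61c: the pseudo spectral gap of the lazy version of an ergodic chain

`IsErgodic M` : `M` is row-stochastic, irreducible and aperiodic; `IsStationary M π` : `π` is a
stationary probability distribution; `pseudoGap π M` is the supremum over `k ≥ 1` of
`γ((M^k)†) / k`; `lazy α M = α I + (1 - α) M`.
-/

set_option autoImplicit false

namespace Pool.Agent.Results.MP_67c61c_pr.LazyPseudoGap

open Pool.Agent.R964.Pseudo

/-- The function `f(α, g) = g (1 - α)^(1/g)`. -/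
noncomputable def lowerBound (α g : ℝ) : ℝ := g * (1 - α) ^ (1 / g)

/-- **Positive answer to Q1, with an explicit function that does not depend on `d`.**
The function `f(α, g) = g (1 - α)^(1/g)` is strictly positive for `0 < α < 1` and `g > 0`, and for
every ergodic chain `M` on `d ≥ 2` states with stationary distribution `π` one has
`0 < γ_ps(M) ≤ 1` and `γ_ps(α I + (1 - α) M) ≥ f(α, γ_ps(M))` for all `0 < α < 1`. -/
theorem result :
    (∀ α g : ℝ, 0 < α → α < 1 → 0 < g → 0 < lowerBound α g) ∧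
    ∀ d : ℕ, 2 ≤ d → ∀ (M : Matrix (Fin d) (Fin d) ℝ) (π : Fin d → ℝ),
      IsErgodic M → IsStationary M π →
      (0 < pseudoGap π M ∧ pseudoGap π M ≤ 1) ∧
      ∀ α : ℝ, 0 < α → α < 1 →
        lowerBound α (pseudoGap π M) ≤ pseudoGap π (lazy α M) := by
  refine ⟨fun α g _ h1 hg => ?_, fun d hd M π hM hπ => ⟨⟨?_, ?_⟩, fun α h0 h1 => ?_⟩⟩
  · exact mul_pos hg (Real.rpow_pos_of_pos (by linarith) _)
  · exact pseudoGap_pos hd hM hπ
  · exact pseudoGap_le_one hd (pi_pos_of hM hπ)
  · exact pseudoGap_lazy_ge hd (pi_pos_of hM hπ) (good_of hM hπ) h0 h1 (pseudoGap_pos hd hM hπ)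

end Pool.Agent.Results.MP_67c61c_pr.LazyPseudoGap
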